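import Pool.Agent.Work.MP_8daf13_an.HD.Main

open Complex Metric
open Pool.Agent.MP_8daf13

namespace Pool.Agent.Results.MP_8daf13_an.CentralDisc

/-- For every p in (0, 1) and every n ≥ 2 the region V_n(p, w₀) for w₀ = -p / (1 + p²) is the
closed disc with centre s_n / s_1 and radius s_(n-2) / s_1, s_j = p^(-j) + p^(2-j) + ... + p^j. -/
theorem result (p : ℝ) (hp : 0 < p) (hp1 : p < 1) (n : ℕ) (hn : 2 ≤ n) :
    V n p (-(p / (1 + p ^ 2) : ℝ) : ℂ) =
      closedBall ((sC p n / sC p 1 : ℝ) : ℂ) (sC p (n - 2) / sC p 1) := by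
  obtain ⟨N, rfl⟩ : ∃ N, n = N + 2 := ⟨n - 2, by omega⟩
  exact Pool.Agent.Work.MP_8daf13_an.HD.central hp hp1 N

end Pool.Agent.Results.MP_8daf13_an.CentralDisc
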