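import Pool.Agent.Work.MP_8daf13_an.LFinal

open Complex Metric
open Pool.Agent.MP_8daf13

namespace Pool.Agent.Results.MP_8daf13_an.LargeIndex

/-- For every p in (0, 1) the regions V_n(p, w₀) (all w₀ ≠ 0) and V_n(p) of the n-th Taylor
coefficient over the meromorphic starlike functions with pole p are determined exactly for all
but finitely many n: with m = (p + 1/p + 1/w₀)/2 the region V_n(p, w₀) is empty if |m| > 1 and is
the image of the closed unit disc under the polynomial ζ ↦ A_n(p, m, ζ) if |m| ≤ 1. This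
polynomial is injective on the closed disc if |m| < 1, and then a boundary value, |ζ| = 1, is
attained by one function only. -/
theorem result (p : ℝ) (hp : 0 < p) (hp1 : p < 1) : ∃ n₀ : ℕ, ∀ n, n₀ ≤ n →
    (∀ w₀ : ℂ, w₀ ≠ 0 →
      V n p w₀ = {a | ‖mOf p w₀‖ ≤ 1 ∧ ∃ ζ : ℂ, ‖ζ‖ ≤ 1 ∧ a = An n p (mOf p w₀) ζ}) ∧
    VU n p = {a | ∃ m ζ : ℂ, ‖m‖ ≤ 1 ∧ ‖ζ‖ ≤ 1 ∧ a = An n p m ζ} ∧
    (∀ m : ℂ, ‖m‖ < 1 → Set.InjOn (An n p m) (closedBall 0 1)) ∧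
    (∀ w₀ : ℂ, w₀ ≠ 0 → ‖mOf p w₀‖ < 1 → ∀ f : ℂ → ℂ, SigmaStar p w₀ f → ∀ ζ : ℂ, ‖ζ‖ = 1 →
      tc f n = An n p (mOf p w₀) ζ → ∀ k, 1 ≤ k → tc f k = An k p (mOf p w₀) ζ) :=
  large_index hp hp1

end Pool.Agent.Results.MP_8daf13_an.LargeIndex
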