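import Pool.Agent.Work.MP_8daf13_an.Three

open Complex Metric
open Pool.Agent.MP_8daf13

namespace Pool.Agent.Results.MP_8daf13_an.ThirdCoefficient

/-- For every p in (0, 1) the regions V_3(p, w₀) and V_3(p) of the third Taylor coefficient are
determined exactly, V_3(p, w₀) is convex, and it is the image of the closed unit disc under the
quadratic polynomial ζ ↦ A_3(p, m, ζ, 0) for every admissible w₀ exactly when p ≤ 1/3. -/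
theorem result (p : ℝ) (hp : 0 < p) (hp1 : p < 1) :
    (∀ w₀ : ℂ, w₀ ≠ 0 → V 3 p w₀ =
      {a | ‖mOf p w₀‖ ≤ 1 ∧ ∃ ζ η : ℂ, ‖ζ‖ ≤ 1 ∧ ‖η‖ ≤ 1 ∧ a = A3 p (mOf p w₀) ζ η}) ∧
    VU 3 p = {a | ∃ m ζ η : ℂ, ‖m‖ ≤ 1 ∧ ‖ζ‖ ≤ 1 ∧ ‖η‖ ≤ 1 ∧ a = A3 p m ζ η} ∧
    (∀ w₀ : ℂ, w₀ ≠ 0 → Convex ℝ (V 3 p w₀)) ∧
    (∀ w₀ : ℂ, w₀ ≠ 0 → ‖mOf p w₀‖ ≤ 1 →
      4 / 3 * (1 + ‖mOf p w₀‖) ≤ ‖(p : ℂ) + 1 / p - 2 / 3 * mOf p w₀‖ →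
      V 3 p w₀ = (fun ζ => A3 p (mOf p w₀) ζ 0) '' closedBall 0 1) ∧
    ((∀ w₀ : ℂ, w₀ ≠ 0 → ‖mOf p w₀‖ ≤ 1 →
      V 3 p w₀ = (fun ζ => A3 p (mOf p w₀) ζ 0) '' closedBall 0 1) ↔ p ≤ 1 / 3) := by
  refine ⟨fun _ hw => V3_eq hp hp1 hw, VU3_eq hp hp1, fun _ hw => V3_convex hp hp1 hw,
    fun _ hw hm hb => V3_eq_slit hp hp1 hw hm hb, ?_, ?_⟩
  · intro h
    by_contra hp3
    obtain ⟨w₀, hw, hm, hne⟩ := sharp_third (not_le.mp hp3) hp1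
    exact hne (h w₀ hw hm.le)
  · intro hp3 w₀ hw hm
    exact V3_eq_slit hp hp1 hw hm (cond_third hp hp3 hm)

end Pool.Agent.Results.MP_8daf13_an.ThirdCoefficient
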